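import Mathlib
import Pool.Agent.Helper87.TR.Defs2

/-!
# Project TA: the strengthened Foulkes conjecture for all partitions: definitions

Polynomials in the coordinates `z_{ij}` (`i < m`, `j < r`) of `m` points; norms of linear forms; set partitions and
equivariant embeddings of permutation modules.
-/

set_option autoImplicit false

open MvPolynomial Finset

namespace Helper87.TA

open Helper87.TR

/-- the value at the `i`-th point of the linear form with coefficients `w` -/
noncomputable def lin {m r : ℕ} (w : Fin r → ℚ) (i : Fin m) : MvPolynomial (Fin m × Fin r) ℚ :=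
  ∑ j, C (w j) * X (i, j)

/-- the norm: the product of the values at the `m` points -/
noncomputable def nm (m : ℕ) {r : ℕ} (w : Fin r → ℚ) : MvPolynomial (Fin m × Fin r) ℚ :=
  ∏ i : Fin m, lin w i

/-- the span of the norms of linear forms -/
noncomputable def A1 (m r : ℕ) : Submodule ℚ (MvPolynomial (Fin m × Fin r) ℚ) :=
  Submodule.span ℚ (Set.range fun w : Fin r → ℚ => nm m w)

/-- the span of the `a`-th powers of norms of linear forms -/
noncomputable def Pa (m r a : ℕ) : Submodule ℚ (MvPolynomial (Fin m × Fin r) ℚ) :=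
  Submodule.span ℚ (Set.range fun w : Fin r → ℚ => nm m w ^ a)

/-- the permanent of the matrix `z_{ij}^n` -/
noncomputable def T0 (m n : ℕ) : MvPolynomial (Fin m × Fin m) ℚ :=
  ∑ σ : Equiv.Perm (Fin m), ∏ i, X (i, σ i) ^ n

/-- degree of an exponent vector in the row `i` -/
def rdeg {m r : ℕ} (e : Fin m × Fin r →₀ ℕ) (i : Fin m) : ℕ := ∑ j, e (i, j)

/-- polynomials of degree `d i` in the `i`-th row for every `i` -/
def RH {m : ℕ} (r : ℕ) (d : Fin m → ℕ) : Submodule ℚ (MvPolynomial (Fin m × Fin r) ℚ) where
  carrier := {f | ∀ e, coeff e f ≠ 0 → ∀ i, rdeg e i = d i}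
  zero_mem' := fun e h => absurd (coeff_zero e) h
  add_mem' := by
    intro f g hf hg e h
    by_cases h1 : coeff e f = 0
    · exact hg e fun h2 => h (by rw [coeff_add, h1, h2, add_zero])
    · exact hf e h1
  smul_mem' := by
    intro c f hf e h
    exact hf e fun h1 => h (by rw [coeff_smul, h1, smul_zero])

/-- the product of the values at the points in `S` -/
noncomputable def nS {m r : ℕ} (S : Finset (Fin m)) (w : Fin r → ℚ) :
    MvPolynomial (Fin m × Fin r) ℚ := ∏ i ∈ S, lin w i

/-- the span of the products `nS S w` -/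
noncomputable def AS {m : ℕ} (r : ℕ) (S : Finset (Fin m)) : Submodule ℚ (MvPolynomial (Fin m × Fin r) ℚ) :=
  Submodule.span ℚ (Set.range fun w : Fin r → ℚ => nS S w)

/-- the value of a form at the `i`-th point -/
noncomputable def evr {m : ℕ} (r : ℕ) (i : Fin m) :
    MvPolynomial (Fin r) ℚ →ₐ[ℚ] MvPolynomial (Fin m × Fin r) ℚ := rename fun j => (i, j)

/-- the norm of a form -/
noncomputable def NN (m : ℕ) {r : ℕ} (g : MvPolynomial (Fin r) ℚ) : MvPolynomial (Fin m × Fin r) ℚ :=
  ∏ i : Fin m, evr r i g

/-- symmetrization over the permutations of the points -/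
noncomputable def sy (m r : ℕ) :
    MvPolynomial (Fin m × Fin r) ℚ →ₗ[ℚ] MvPolynomial (Fin m × Fin r) ℚ :=
  ∑ σ : Equiv.Perm (Fin m), (rename fun p : Fin m × Fin r => (σ p.1, p.2)).toLinearMap

/-- the set of the fibres of a map -/
def fibs {N : ℕ} {ι : Type*} [Fintype ι] [DecidableEq ι] (κ : Fin N → ι) : Finset (Finset (Fin N)) :=
  univ.image fun i => univ.filter fun x => κ x = i

/-- all fibres have `s` elements -/
def Bal {N : ℕ} {ι : Type*} [DecidableEq ι] (s : ℕ) (κ : Fin N → ι) : Prop :=
  ∀ i, (univ.filter fun x => κ x = i).card = s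

/-- equivariant embedding of permutation modules -/
def PermLe (N b s b' s' : ℕ) : Prop :=
  ∃ T : (SetPart N b s → ℂ) →ₗ[ℂ] (SetPart N b' s' → ℂ), Function.Injective T ∧
    ∀ (g : Equiv.Perm (Fin N)) (F : SetPart N b s → ℂ), T (act g F) = act g (T F)

/-- the space of equivariant linear maps from a representation to a permutation module -/
def Eqv {N : ℕ} {W : Type*} [AddCommGroup W] [Module ℂ W]
    (ρ : Representation ℂ (Equiv.Perm (Fin N)) W) (b s : ℕ) : Submodule ℂ (W →ₗ[ℂ] (SetPart N b s → ℂ)) where
  carrier := {T | ∀ g w, T (ρ g w) = act g (T w)}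
  zero_mem' := fun g w => rfl
  add_mem' := by
    intro T T' hT hT' g w
    rw [LinearMap.add_apply, hT g w, hT' g w]
    rfl
  smul_mem' := by
    intro c T hT g w
    rw [LinearMap.smul_apply, hT g w]
    rfl

end Helper87.TA
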