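import Mathlib
import Pool.Agent.Helper87.TA.Defs
import Pool.Agent.Helper87.TA.St.Tile
import Pool.Agent.Helper87.TA.St.FHC
import Pool.Agent.Helper87.TA.St.TrA
import Pool.Agent.Helper87.TA.St.TrB

/-!
# Project TA: final assembly, polynomial bound
-/

set_option autoImplicit false

open Finset

namespace Helper87.TA

open Helper87.TR

theorem T0_mem (m a c : ℕ) (hm : 1 ≤ m) (ha : 1 ≤ a) (hc : m ^ 4 ≤ c) (hn : m ^ 5 ≤ a * c) :
    T0 m (a * c) ∈ Pa m m a ^ c := by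
  obtain ⟨u, rfl⟩ : ∃ u, m = u + 1 := ⟨m - 1, by omega⟩
  set k := u * u with hk
  set T := range ((u + 1) * u + 1) with hT
  have hTc : T.card = (u + 1) * u + 1 := card_range _
  have h5 : (u + 1) ^ 5 = k + T.card * (k * u) + (4 * u ^ 4 + 9 * u ^ 3 + 9 * u ^ 2 + 5 * u + 1) := by
    rw [hTc, hk]
    ring
  have h4 : (u + 1) ^ 4 = (u + 1) * ((u + 1) * u + k * (u + 1)) + (u ^ 3 + 3 * u ^ 2 + 3 * u + 1) := by
    rw [hk]
    ring
  have h6 : (u + 1) ^ 5 = k * (u + 1) + (u ^ 5 + 5 * u ^ 4 + 9 * u ^ 3 + 9 * u ^ 2 + 5 * u + 1) := by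
    rw [hk]
    ring
  have h1 := fhC (u + 1) (a * c) k hm (by rw [hk, Nat.add_sub_cancel]) T
    (by rw [hTc, Nat.add_sub_cancel]) (by rw [Nat.add_sub_cancel]; omega)
  have h8 : Submodule.span ℚ ((fun t => nm (u + 1) (qv (u + 1) t)) '' (T : Set ℕ)) ^
      (a * c - k * (u + 1)) * A1 (u + 1) (u + 1) ^ (k * (u + 1)) ≤ Pa (u + 1) (u + 1) a ^ c := by
    refine (mul_le_mul' (pow_span T (fun t => nm (u + 1) (qv (u + 1) t)) _)
      (pow_range (fun w : Fin (u + 1) → ℚ => nm (u + 1) w) _)).trans ?_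
    rw [Submodule.span_mul_span, Submodule.span_le]
    rintro x ⟨x1, ⟨γ, hγ, rfl⟩, x2, ⟨w, rfl⟩, rfl⟩
    have h13 := tile (u + 1) (u + 1) a hm ha (Sum.elim (qv (u + 1)) w)
      ((u + 1) * u + k * (u + 1)) c (T.disjSum (univ : Finset (Fin (k * (u + 1)))))
      (Sum.elim γ fun _ => 1) (by
        rw [Finset.card_disjSum, card_univ, Fintype.card_fin, hTc]
        ring) (by
        rw [Finset.sum_disjSum]
        simp only [Sum.elim_inl, Sum.elim_inr, sum_const, card_univ, Fintype.card_fin, smul_eq_mul,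
          mul_one]
        rw [hγ]
        omega) (by omega)
    rw [Finset.prod_disjSum] at h13
    simp only [Sum.elim_inl, Sum.elim_inr, pow_one] at h13
    exact h13
  exact h8 h1

theorem PermLe.trans {N b s b' s' b'' s'' : ℕ} (h : PermLe N b s b' s') (h' : PermLe N b' s' b'' s'') :
    PermLe N b s b'' s'' := by
  obtain ⟨T, hT, hg⟩ := h
  obtain ⟨T', hT', hg'⟩ := h'
  exact ⟨T' ∘ₗ T, hT'.comp hT, fun g F => by
    rw [LinearMap.comp_apply, LinearMap.comp_apply, hg, hg']⟩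

/-- `m | p`, `q` large: both embeddings -/
theorem permLe_dvd (m n p q : ℕ) (hm : 1 ≤ m) (h : m * n = p * q) (hp : 1 ≤ p) (hd : m ∣ p)
    (hq : m ^ 4 ≤ q) (hn : m ^ 5 ≤ n) : PermLe (m * n) m n p q ∧ PermLe (m * n) m n q p := by
  obtain ⟨a, rfl⟩ := hd
  have ha : 1 ≤ a := Nat.pos_of_ne_zero fun h0 => by subst h0; omega
  have hn' : n = a * q := by
    have : m * n = m * (a * q) := by rw [h]; ring
    exact Nat.eq_of_mul_eq_mul_left hm this
  subst hn'
  have hq1 : 1 ≤ q := le_trans (Nat.pow_pos hm) hq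
  have hT := T0_mem m a q hm ha hq hn
  exact ⟨permLe_A m a q hm ha hq1 hT, permLe_B m a q hm ha hq1 hT⟩

/-- no divisibility, `p` large with respect to `m` and `q` large with respect to `p` -/
theorem permLe_large (m n p q : ℕ) (hm : 1 ≤ m) (h : m * n = p * q) (hp : m ^ 5 ≤ p)
    (hq : p ^ 5 ≤ q) : PermLe (m * n) m n p q ∧ PermLe (m * n) m n q p := by
  have hp1 : 1 ≤ p := le_trans (Nat.pow_pos hm) hp
  have hq1 : 1 ≤ q := le_trans (Nat.pow_pos hp1) hq
  -- `g = gcd m q`, `m = g d`, `q = g e`, `p = d s`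
  have hmd : m ∣ p * q := ⟨n, h.symm⟩
  obtain ⟨d, hd⟩ := Nat.gcd_dvd_left m q
  obtain ⟨e, he⟩ := Nat.gcd_dvd_right m q
  set g := Nat.gcd m q with hg
  have hg1 : 1 ≤ g := Nat.pos_of_ne_zero fun h0 => by rw [h0] at hd; omega
  have hd1 : 1 ≤ d := Nat.pos_of_ne_zero fun h0 => by rw [h0] at hd; omega
  have hcop : Nat.Coprime d e := by
    have h7 : Nat.gcd (g * d) (g * e) = g := by rw [← hd, ← he]
    rw [Nat.gcd_mul_left] at h7
    exact Nat.eq_of_mul_eq_mul_left hg1 (by rw [h7, Nat.mul_one])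
  have hdp2 : d ∣ p := by
    have h7 : g * d ∣ g * (p * e) := by
      have : g * (p * e) = p * q := by rw [he]; ring
      rw [this, ← hd]
      exact hmd
    exact hcop.dvd_of_dvd_mul_right (Nat.dvd_of_mul_dvd_mul_left hg1 h7)
  obtain ⟨s, hs⟩ := hdp2
  have hs1 : 1 ≤ s := Nat.pos_of_ne_zero fun h0 => by rw [h0] at hs; omega
  have hdm : d ≤ m := by
    rw [hd]
    exact Nat.le_mul_of_pos_left d hg1
  have hsm : m ^ 4 ≤ s := by
    have h8 : d * m ^ 4 ≤ d * s := by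
      rw [← hs]
      refine (Nat.mul_le_mul_right _ hdm).trans ?_
      rw [← pow_succ']
      exact hp
    exact Nat.le_of_mul_le_mul_left h8 hd1
  have hsp : s ≤ p := by
    rw [hs]
    exact Nat.le_mul_of_pos_left s hd1
  have hmq : m ≤ q := by
    have h9 : m ≤ m ^ 5 := Nat.le_self_pow (by norm_num) m
    have h10 : p ≤ p ^ 5 := Nat.le_self_pow (by norm_num) p
    exact ((h9.trans hp).trans h10).trans hq
  have hn : m ^ 5 ≤ n := by
    have h9 : m * m ^ 5 ≤ m * n := by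
      rw [h, Nat.mul_comm]
      exact Nat.mul_le_mul hp hmq
    exact Nat.le_of_mul_le_mul_left h9 hm
  have hsq5 : s ^ 5 ≤ q := (Nat.pow_le_pow_left hsp 5).trans hq
  have hsq4 : s ^ 4 ≤ q := (Nat.pow_le_pow_right hs1 (by norm_num)).trans hsq5
  -- first step: `m` blocks of size `n` into `s` blocks of size `d q`
  have h1 : m * n = (d * q) * s := by rw [h, hs]; ring
  have h2 := (permLe_dvd m n (d * q) s hm h1 (Nat.mul_pos hd1 hq1)
    (by rw [he, hd]; exact ⟨e, by ring⟩) hsm hn).2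
  have h3 : m * n = s * (d * q) := by rw [h1]; ring
  -- second step
  have h4 := permLe_dvd s (d * q) p q hs1 (by rw [← h3, h]) hp1 ⟨d, by rw [hs]; ring⟩ hsq4
    (hsq5.trans (Nat.le_mul_of_pos_left _ hd1))
  rw [← h3] at h4
  exact ⟨h2.trans h4.1, h2.trans h4.2⟩

/-- `y` blocks can be reached from `x` blocks in one step -/
def Step (N x y : ℕ) : Prop :=
  x ∣ N ∧ y ∣ N ∧ x ^ 5 ≤ N / x ∧ ((x ∣ y ∧ x ^ 4 ≤ N / y) ∨ (x ∣ N / y ∧ x ^ 4 ≤ y))

theorem permLe_step {N x y : ℕ} (hN : 1 ≤ N) (h : Step N x y) : PermLe N x (N / x) y (N / y) := by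
  obtain ⟨⟨n, rfl⟩, ⟨q, hq⟩, h0, h⟩ := h
  have hx : 1 ≤ x := Nat.pos_of_ne_zero fun h0 => by subst h0; omega
  have hy : 1 ≤ y := Nat.pos_of_ne_zero fun h0 => by subst h0; omega
  have h1 : x * n / x = n := Nat.mul_div_cancel_left n hx
  have h2 : x * n / y = q := by rw [hq]; exact Nat.mul_div_cancel_left q hy
  rw [h2] at h
  rw [h1] at h0
  rw [h1, h2]
  have hq1 : 1 ≤ q := Nat.pos_of_ne_zero fun h0 => by subst h0; omega
  rcases h with ⟨h3, h4⟩ | ⟨h3, h4⟩
  · exact (permLe_dvd x n y q hx hq hy h3 h4 h0).1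
  · exact (permLe_dvd x n q y hx (by rw [hq, Nat.mul_comm]) hq1 h3 h4 h0).2

theorem PermLe.refl (N b s : ℕ) : PermLe N b s b s :=
  ⟨LinearMap.id, fun _ _ h => h, fun _ _ => rfl⟩

/-- along chains of steps -/
theorem permLe_chains {N m p : ℕ} (hN : 1 ≤ N) (h : Relation.ReflTransGen (Step N) m p) :
    PermLe N m (N / m) p (N / p) := by
  induction h with
  | refl => exact PermLe.refl _ _ _
  | tail _ h2 ih => exact ih.trans (permLe_step hN h2)

/-- an equivariant embedding gives the inequality for the multiplicity of every representation -/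
theorem finrank_le_of_permLe {N b s b' s' : ℕ} (h : PermLe N b s b' s') {W : Type*} [AddCommGroup W]
    [Module ℂ W] [FiniteDimensional ℂ W] (ρ : Representation ℂ (Equiv.Perm (Fin N)) W) :
    Module.finrank ℂ (Eqv ρ b s) ≤ Module.finrank ℂ (Eqv ρ b' s') := by
  obtain ⟨T, hT, hg⟩ := h
  refine LinearMap.finrank_le_finrank_of_injective
    (f := ((LinearMap.llcomp ℂ W _ _ T).comp (Eqv ρ b s).subtype).codRestrict (Eqv ρ b' s') ?_) ?_
  · rintro ⟨S, hS⟩ g w
    change T (S (ρ g w)) = act g (T (S w))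
    rw [hS g w, hg]
  · rintro ⟨S, hS⟩ ⟨S', hS'⟩ hSS
    have h1 := congrArg Subtype.val hSS
    apply Subtype.ext
    ext1 w
    exact hT (LinearMap.congr_fun h1 w)

end Helper87.TA
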